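import Pool.Agent.Helper84.T5g.Pair
import Pool.Agent.Helper3.T5.Defs
import Pool.Agent.Helper54.T5g.MSplit

/-!
# T5g, line 8 (CaseMid): definitions

`MNs m k l' l`: the joint level of a pair of states without SPLIT between them, as an instance of
`MP`; the key families are the moving main families.  `Rest m k l w o`: the sums of the static codes
and of the window part for the outer key `o`.
-/

set_option autoImplicit false

namespace Pool.Agent.Helper3.T5g

open Finset Pool.Agent.Helper27.T4 Pool.Agent.Helper84.T5g Pool.Agent.Helper37.T5g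
  Pool.Agent.Helper30.T5g Pool.Agent.Helper27.T5b
open Pool.Agent.Helper5.ET hiding Key keysOf Mk AA Rp el
open Pool.Agent.Helper3.T5 Pool.Agent.Helper39.T5 Pool.Agent.Helper54.T5g

/-- the joint level of a pair of states without SPLIT between them -/
noncomputable def MNs (m : Sq) (k l' l : ℕ) : MP JF Key where
  p := pJ k (sL m k l)
  c := aJ m k (sL m k l) l
  c' := aJ m k (sL m k l) l'
  e := aJ m k (sL m k l) (ef m k l 0)
  e' := aJ m k (sL m k l) (ef m k l' 0)
  X := XJ m k l
  X' := XJ m k l'
  pre := preJ m k l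
  pre' := preJ m k l'
  key := fun i x => Key.J l i (maskJ (preJ m k l i) x)
  key' := fun i x => Key.J l' i (maskJ (preJ m k l' i) x)
  rk := Sum.elim (rk (ordK (mL m k l))) (fun _ => 0)
  P := (mov m k l' l).image Sum.inl
  R := Sum.inl (fam (era (mL m k l') + 2))

/-- an element without its joint code -/
noncomputable def rst (m : Sq) (k l : ℕ) (w : Key → ℕ) (o : JF → ℕ)
    (y : Fin (rL m k l) → Fin 3 → ℕ) (u : ℕ) : ℕ :=
  ∑ t : Fin (rL m k l), cs m k l t w (if (t : ℕ) = 0 then o else 0) (y t) + u

/-- the elements with the outer key `o`, without their joint codes -/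
noncomputable def Rest (m : Sq) (k l : ℕ) (w : Key → ℕ) (o : JF → ℕ) : Finset ℕ :=
  (Fintype.piFinset (fun t : Fin (rL m k l) => Ys m k l t) ×ˢ
    (Vw m k l w).image (fun v => Un m k l * v)).image (fun q => rst m k l w o q.1 q.2)

/-- few pairs of rests have a sum in an interval and in a class modulo the joint front of the lower
state, for all outer keys of the two states -/
def GoodM (m : Sq) (k l l' E1 : ℕ) (w : Key → ℕ) : Prop :=
  ∀ n a, ∀ x ∈ XJ m k l, ∀ x' ∈ XJ m k l',
    ((Rest m k l w (okey m k l 0 x) ×ˢ Rest m k l' w (okey m k l' 0 x')).filter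
      (fun q => (q.1 + q.2 ≤ n ∧ n < q.1 + q.2 + 2 * FF m k l 0) ∧
        q.1 + q.2 ≡ a [MOD FF m k l' 0])).card ≤ E1

theorem okey_eq (m : Sq) (k l t : ℕ) (x : JF → ℕ) :
    okey m k l t x = if t = 0 then okey m k l 0 x else 0 := by
  unfold okey
  by_cases h : t = 0 <;> simp [h]

/-- the elements as joint code plus rest -/
theorem el_eq (m : Sq) (k l : ℕ) (w : Key → ℕ) (x : JF → ℕ) (y : Fin (rL m k l) → Fin 3 → ℕ) (u : ℕ) :
    Pool.Agent.Helper84.T5g.el m k l w x y u = c0 m k l w x + rst m k l w (okey m k l 0 x) y u := by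
  unfold Pool.Agent.Helper84.T5g.el rst
  rw [add_assoc]
  congr 2

end Pool.Agent.Helper3.T5g
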