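import Pool.Agent.Helper3.T5g.MidCore
import Pool.Agent.Helper96.T5g.MNs
import Pool.Agent.Helper45.T5g.Mid5
import Pool.Agent.Helper25.T5g.Num
import Pool.Agent.Helper30.T5g.BigQF
import Pool.Agent.Helper75.T5g.Up
import Pool.Agent.Helper29.T5g.Free
import Pool.Agent.Helper84.T5g.Top

/-!
# T5g, line 8 (CaseMid): the block from the number
-/

set_option autoImplicit false

namespace Pool.Agent.Helper3.T5g

open Finset Pool.Agent.Helper27.T4 Pool.Agent.Helper84.T5g Pool.Agent.Helper37.T5g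
  Pool.Agent.Helper30.T5g Pool.Agent.Helper22.HW Pool.Agent.Helper22.SL
open Pool.Agent.Helper5.ET (bb era)
open Pool.Agent.Helper3.T5
open Pool.Agent.Helper42.T5.Pr (PrLe PrLe_mono)
open Pool.Agent.Helper99.T5g (OkF)

/-- P3: the number of line 8 -/
def MidNumStmt (m : Sq) (k : ℕ) : Prop := ∃ l0 : ℕ, ∀ l' l, l0 ≤ l' → l' ≤ l → Near m k l' l →
  Same m k l' l → 7 * SS m (sL m k l) ≤ 20 * (l - l') → l - l' < 200 * SS m (sL m k l) →
  ∀ E1 : ℕ, (E1 : ℝ) ≤ Pool.Agent.Helper45.T5g.FE m k l' l →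
    E1 * ((MNs m k l' l).C * MP.Lam0 (MNs m k l' l) *
      (((MNs m k l' l).Ne' : ℝ) / (MNs m k l' l).Ne + 1 / (MNs m k l' l).q)) ≤
    Real.exp (-((SS m (sL m k l) : ℝ) / 50))

variable {m : Sq} {k : ℕ}

/-- the number of targets and the fresh modulus are at most exponential -/
theorem exists_size (hm : m.Ok) (k : ℕ) (hQ : BigQ m k) : ∃ l0 : ℕ, ∀ l' l, l0 ≤ l' → l' ≤ l →
    ((34 * NL m k l : ℕ) : ℝ) * ((MNs m k l' l).q : ℝ) ^ 2 ≤ Real.exp (79 * l) := by
  obtain ⟨l1, h1⟩ := Pool.Agent.Helper27.T5g.exists_bL hm k 0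
  obtain ⟨l2, h2⟩ := exists_late (m := m) (k := k) hm 0 0
  obtain ⟨l3, h3⟩ := Pool.Agent.Helper25.T5g.exists_NL_exp hm k
  refine ⟨l1 + l2 + l3 + 10, ?_⟩
  intro l' l hl' hll
  obtain ⟨hbb, -⟩ := h1 l (by omega)
  obtain ⟨-, hbb0, hk, -, h5⟩ := h2 l (by omega)
  have hS : SS m (sL m k l) ≤ l := by
    have h6 := SS_sv_succ_le' hm hbb0 hk
    have h7 : SS m (sL m k l) ≤ SS m (sL m k l + 1) := SS_mono m (Nat.le_succ _)
    have h8 : mL m k l ≤ l := Pool.Agent.Helper27.T5b.l1_le (ins m k) l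
    exact h7.trans (h6.trans h8)
  have he1 := (Pool.Agent.Helper27.T5g.ef_bounds hm k l 0).1
  have hef : ef m k l 0 ≤ 2 * l := by
    have := (Pool.Agent.Helper27.T5g.ef_bounds hm k l 0).2.2
    omega
  have hq : ((MNs m k l' l).q : ℝ) ≤ Real.exp (30 * l) := by
    have a1 : (MNs m k l' l).q ∣ FF m k l 0 := pow_dvd_NN (pJ k (sL m k l)) _ _
    have a2 : (MNs m k l' l).q ≤ NL m k (ef m k l 0) := by
      rw [← Pool.Agent.Helper27.T5g.FF_mul_RT (k := k) hm hbb 0]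
      refine (Nat.le_of_dvd (Pool.Agent.Helper27.T5g.FF_pos _ _ _ _) a1).trans ?_
      exact Nat.le_mul_of_pos_right _ (RT_pos _ _ _)
    have a3 : ((MNs m k l' l).q : ℝ) ≤ NL m k (ef m k l 0) := by exact_mod_cast a2
    have a4 := h3 (ef m k l 0) (by omega)
    have a5 : ((ef m k l 0 : ℕ) : ℝ) ≤ 2 * l := by exact_mod_cast hef
    exact a3.trans (a4.trans (Real.exp_le_exp.2 (by linarith)))
  have hl1 : (10 : ℝ) ≤ l := by exact_mod_cast (show 10 ≤ l by omega)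
  have e0 : (34 : ℝ) ≤ Real.exp (4 * l) := by
    have := Real.add_one_le_exp (4 * (l : ℝ))
    linarith
  have e1 : ((34 * NL m k l : ℕ) : ℝ) ≤ Real.exp (4 * l) * Real.exp (15 * l) := by
    push_cast
    exact mul_le_mul e0 (h3 l (by omega)) (Nat.cast_nonneg _) (Real.exp_pos _).le
  calc ((34 * NL m k l : ℕ) : ℝ) * ((MNs m k l' l).q : ℝ) ^ 2
      ≤ (Real.exp (4 * l) * Real.exp (15 * l)) * (Real.exp (30 * l)) ^ 2 :=
        mul_le_mul e1 (pow_le_pow_left₀ (Nat.cast_nonneg _) hq 2) (by positivity) (by positivity)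
    _ = _ := by
      rw [← Real.exp_nat_mul, ← Real.exp_add, ← Real.exp_add]
      congr 1
      push_cast
      ring

/-- the exponent of `SS m (sL m k l)` against the index -/
theorem exists_exp2 : ∃ E : ℕ, ∀ m : Sq, OkF m → ∃ l0 : ℕ, ∀ l, l0 ≤ l →
    4000 * (l : ℝ) ≤ (2 ^ (E * m.q 0) : ℕ) * (SS m (sL m m.k l) : ℝ) := by
  obtain ⟨E, h⟩ := Pool.Agent.Helper75.T5g.exists_le_SS_sL
  refine ⟨E + 1, fun m hm => ?_⟩
  obtain ⟨l0, h⟩ := h m hm
  refine ⟨l0, fun l hl => ?_⟩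
  have h1 := h l hl
  have h2 : 4000 ≤ 2 ^ m.q 0 := by
    have := hm.q 0
    calc 4000 ≤ 2 ^ 12 := by norm_num
      _ ≤ _ := Nat.pow_le_pow_right (by norm_num) (by omega)
  have h3 : 4000 * l ≤ 2 ^ ((E + 1) * m.q 0) * SS m (sL m m.k l) := by
    calc 4000 * l ≤ 2 ^ m.q 0 * (2 ^ (E * m.q 0) * SS m (sL m m.k l)) := Nat.mul_le_mul h2 h1
      _ = _ := by
        rw [← mul_assoc, ← pow_add]
        congr 2
        ring
  exact_mod_cast h3

/-- line 8 for one `m` -/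
theorem mid_gen : ∃ E : ℕ, ∀ m : Sq, OkF m → MidNumStmt m m.k →
    PairOK m (CaseMid m m.k) (FreeC m m.k) E := by
  obtain ⟨E, hE⟩ := exists_exp2
  refine ⟨E, fun m hF hnum => ?_⟩
  obtain ⟨ls, hC⟩ := hE m hF
  have hm : m.Ok := hF.toOk
  have hQ : BigQ m m.k := Pool.Agent.Helper30.T5g.bigQ_of_okF hF
  obtain ⟨k, hk⟩ : ∃ k, k = m.k := ⟨_, rfl⟩
  unfold PairOK
  rw [← hk] at hnum hC hQ ⊢
  have hk1 : 1 ≤ k := by
    have := hm.k2
    omega
  obtain ⟨ln, hn⟩ := hnum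
  obtain ⟨lg, hg⟩ := Pool.Agent.Helper45.T5g.good_restM hm hF.qc hF.kc hk1
  obtain ⟨lo, ho⟩ := Pool.Agent.Helper96.T5g.MNs_ok hm k
  obtain ⟨lb, hb⟩ := Pool.Agent.Helper27.T5g.exists_bL hm k 0
  obtain ⟨lr, hr⟩ := Pool.Agent.Helper27.T5g.exists_AA_range hm k
  obtain ⟨la, hA⟩ := exists_size hm k hQ
  refine ⟨ln + lg + lo + lb + lr + la + ls + (2 ^ (E * m.q 0)) ^ 2 + 1, 1 / 2, 2,
    by norm_num, by norm_num, ?_⟩
  intro l l' hl' hll _ hcase K hK hK'
  obtain ⟨hN, hS, h7, h200⟩ := hcase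
  have hSp : 0 < SS m (sL m k l) := SS_pos m _
  have hlt : l' < l := by omega
  have hs : sL m k l' = sL m k l := hS
  have hM := ho l' l (by omega) hlt hN hS
  have hgood := hg l' l (by omega) hll hS K hK hK'
  have hrho := hn l' l (by omega) hll hN hS h7 h200 ⌊Pool.Agent.Helper45.T5g.FE m k l' l⌋₊
    (Nat.floor_le (by unfold Pool.Agent.Helper45.T5g.FE; positivity))
  have hSr : (0 : ℝ) < SS m (sL m k l) := by exact_mod_cast hSp
  have hl1 : (1 : ℝ) ≤ l := by exact_mod_cast (show 1 ≤ l by omega)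
  set mm : ℕ := 2 ^ (E * m.q 0) with hmm
  have hmm2 : 50 * 80 * (l : ℝ) ≤ mm * SS m (sL m k l) := by
    have := hC l (by omega)
    linarith
  have hcore := mid_core (mm := mm) (n1 := 34 * NL m k l) hm (hb l (by omega)).1
    (hb l' (by omega)).1 hll hs hM hK hK' hgood (fun w n hne => by
      obtain ⟨q, hq⟩ := hne
      unfold Hts at hq
      rw [mem_filter, mem_product] at hq
      obtain ⟨⟨h1, h2⟩, h3⟩ := hq
      have a1 := (hr l (by omega) w (Pool.Agent.Helper84.T5g.val m k l w q.1) (by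
        rw [AA_eq]
        exact mem_image_of_mem _ h1)).2.1
      have a2 := (hr l' (by omega) w (Pool.Agent.Helper84.T5g.val m k l' w q.2) (by
        rw [AA_eq]
        exact mem_image_of_mem _ h2)).2.1
      have a3 := NL_mono m k hll
      omega) (Real.exp_pos _).le hrho
  refine PrLe_mono (fun r _ hw => hw) ?_ (PrLe_of_PrG hcore)
  have e1 : Real.exp (-(SS m (sL m k l) : ℝ)) ≤ Real.exp (-((l : ℝ) ^ ((1 : ℝ) / 2))) := by
    apply Real.exp_le_exp.2
    apply neg_le_neg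
    rw [← Real.sqrt_eq_rpow]
    have a1 : (mm : ℝ) ≤ Real.sqrt l := by
      apply Real.le_sqrt_of_sq_le
      have : mm ^ 2 ≤ l := by omega
      exact_mod_cast this
    have a2 : (0 : ℝ) < mm := by
      have : 0 < mm := by positivity
      exact_mod_cast this
    have a3 : Real.sqrt l * Real.sqrt l = l := Real.mul_self_sqrt (by linarith)
    have a4 : Real.sqrt l * mm ≤ SS m (sL m k l) * mm := by
      have h1 := mul_le_mul_of_nonneg_left a1 (Real.sqrt_nonneg (l : ℝ))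
      rw [a3] at h1
      linarith
    exact le_of_mul_le_mul_right a4 a2
  have e2 : ((34 * NL m k l : ℕ) : ℝ) * (((MNs m k l' l).q : ℝ) ^ 2 *
      Real.exp (-((SS m (sL m k l) : ℝ) / 50)) ^ (mm + 1)) ≤
      Real.exp (-((l : ℝ) ^ ((1 : ℝ) / 2))) := by
    have a1 := hA l' l (by omega) hll
    have a2 : Real.exp (-((SS m (sL m k l) : ℝ) / 50)) ^ (mm + 1) ≤
        Real.exp (-(80 * l)) := by
      rw [← Real.exp_nat_mul]
      apply Real.exp_le_exp.2
      have : 80 * (l : ℝ) ≤ ((mm : ℝ) + 1) * (SS m (sL m k l) / 50) := by linarith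
      have e : (((mm + 1 : ℕ) : ℝ)) = (mm : ℝ) + 1 := by
        push_cast
        ring
      rw [e]
      linarith
    rw [← mul_assoc]
    calc ((34 * NL m k l : ℕ) : ℝ) * ((MNs m k l' l).q : ℝ) ^ 2 *
        Real.exp (-((SS m (sL m k l) : ℝ) / 50)) ^ (mm + 1)
        ≤ Real.exp (79 * l) * Real.exp (-(80 * l)) :=
          mul_le_mul a1 a2 (by positivity) (Real.exp_pos _).le
      _ = Real.exp (-(l : ℝ)) := by
          rw [← Real.exp_add]
          congr 1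
          ring
      _ ≤ _ := by
          apply Real.exp_le_exp.2
          apply neg_le_neg
          calc (l : ℝ) ^ ((1 : ℝ) / 2) ≤ (l : ℝ) ^ (1 : ℝ) :=
                Real.rpow_le_rpow_of_exponent_le hl1 (by norm_num)
            _ = l := Real.rpow_one _
  linarith

/-- **line 8**: free sets of hits -/
theorem mid_free (hnum : ∀ m : Sq, OkF m → MidNumStmt m m.k) : Blk CaseMid FreeC := by
  obtain ⟨E, h⟩ := mid_gen
  exact ⟨E, 0, fun m hm _ => h m hm (hnum m hm)⟩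

theorem up_of_mid (hm : m.Ok) {l' l : ℕ} (h : CaseMid m k l' l) : CaseUp m k l' l := by
  obtain ⟨h1, h2, h3, h4⟩ := h
  refine ⟨h1, h2, ?_⟩
  have h5 := (Pool.Agent.Helper27.T5g.ef_bounds hm k l' 0).2.1
  have h6 : sL m k l' = sL m k l := h2
  rw [h6, Nat.sub_zero] at h5
  have h7 : 0 < SS m (sL m k l) := SS_pos m _
  omega

/-- **line 8** from line 5 and the number -/
theorem mid_rpc (hnum : ∀ m : Sq, OkF m → MidNumStmt m m.k) (h5 : Blk CaseUp CstC) :
    Blk CaseMid RpC := by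
  refine rpc_of_free (k0 := 0) (E0 := 1) (fun m k l' l h => h.1)
    (fun m hm _ => Pool.Agent.Helper29.T5g.freeStmt m hm.toOk) ?_ (mid_free hnum)
  obtain ⟨E, k0, h⟩ := h5
  exact ⟨E, k0, fun m hm hk => (h m hm hk).mono le_rfl (fun l' l hl => up_of_mid hm.toOk hl)
    (fun _ _ _ c hc => ⟨c, le_rfl, hc⟩)⟩

end Pool.Agent.Helper3.T5g
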