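import Pool.Agent.Helper3.T5.Lab
import Pool.Agent.Helper3.T5g.MidDefs
import Pool.Agent.Helper54.T5g.KeysOf
import Pool.Agent.Helper45.T5g.WinB

/-!
# T5g, line 8 (CaseMid), P5: free sets of hits from the count of the pairs of rests
-/

set_option autoImplicit false

namespace Pool.Agent.Helper3.T5g

open Finset Pool.Agent.Helper27.T4 Pool.Agent.Helper84.T5g Pool.Agent.Helper37.T5g
  Pool.Agent.Helper30.T5g Pool.Agent.Helper27.T5g Pool.Agent.Helper27.T5b Pool.Agent.Helper22.HW Pool.Agent.Helper22.SL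
open Pool.Agent.Helper5.ET (bb era)
open Pool.Agent.Helper3.T5 Pool.Agent.Helper39.T5 Pool.Agent.Helper54.T5g

variable {m : Sq} {k l l' : ℕ}

theorem PrLe_of_PrG {κ : Type*} [DecidableEq κ] {M : κ → ℕ} {K : Finset κ}
    {B : (κ → ℕ) → Prop} {ε : ℝ} (h : PrG M K B ε) : Pool.Agent.Helper42.T5.Pr.PrLe M K B ε := h

theorem PrG_of_PrLe {κ : Type*} [DecidableEq κ] {M : κ → ℕ} {K : Finset κ}
    {B : (κ → ℕ) → Prop} {ε : ℝ} (h : Pool.Agent.Helper42.T5.Pr.PrLe M K B ε) : PrG M K B ε := h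

/-- a key which is not a key of the joint level -/
def NJ (q : Key) : Prop := ∀ l i z, q ≠ Key.J l i z

/-- the rests depend on the keys of the static levels and of the window -/
theorem Rest_congr (hm : m.Ok) (hl : bb 0 ≤ mL m k l) {w w' : Key → ℕ}
    (h : ∀ q ∈ keysOf m k l, NJ q → w q = w' q) {o : JF → ℕ} (ho : ∀ j, o j < Bd m k l) :
    Rest m k l w o = Rest m k l w' o := by
  have hV : Vw m k l w = Vw m k l w' := rfl
  unfold Rest
  rw [hV]
  refine Finset.image_congr (fun q hq => ?_)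
  rw [mem_coe, mem_product, Fintype.mem_piFinset] at hq
  unfold rst
  congr 1
  refine Finset.sum_congr rfl (fun t _ => ?_)
  refine cs_congr hm hl h (fun t f o y l i z h => by cases h) t.2 ?_ (hq.1 t)
  split_ifs
  · exact ho
  · intro j
    exact Bd_pos m k l

/-- the rests are multiples of the joint number -/
theorem rest_dvd (hm : m.Ok) {w : Key → ℕ} {o : JF → ℕ} {b : ℕ} (hb : b ∈ Rest m k l w o) :
    Jn m k (sL m k l) l ∣ b := by
  unfold Rest at hb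
  rw [mem_image] at hb
  obtain ⟨⟨y, u⟩, hq, rfl⟩ := hb
  rw [mem_product, mem_image] at hq
  obtain ⟨_, v, _, hvu⟩ := hq
  unfold rst
  simp only at hvu ⊢
  rw [← hvu]
  refine dvd_add (Finset.dvd_sum fun t _ => ?_) ?_
  · refine dvd_trans (dvd_mul_of_dvd_left ?_ _) (Pool.Agent.Helper45.T5g.cs_dvd m k l t w _ (y t))
    exact Pool.Agent.Helper45.T5g.Jn_dvd m k (sL m k l)
      (Pool.Agent.Helper27.T5g.ef_bounds hm k l (t + 1)).1.le
  · refine dvd_mul_of_dvd_left ?_ _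
    exact dvd_mul_right _ _

/-- the code of the upper state -/
theorem cd_eq (hM : (MNs m k l' l).Ok (Pool.Agent.Helper84.T5g.Mk m k)) (w : Key → ℕ) (x : JF → ℕ) :
    (MNs m k l' l).cd hM w x = c0 m k l w x := rfl

/-- the code of the lower state -/
theorem cd'_eq (hs : sL m k l' = sL m k l)
    (hM : (MNs m k l' l).Ok (Pool.Agent.Helper84.T5g.Mk m k)) (w : Key → ℕ) (x : JF → ℕ) :
    (MNs m k l' l).cd' hM w x = c0 m k l' w x := by
  have h : ∀ (s : ℕ) (hs : s = sL m k l), (MNs m k l' l).cd' hM w x =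
      cv (pJ_prime k s) (pJ_inj k s) (aJ m k s (ef m k l' 0)) (fun i =>
        Lg (pJ k s i) (aJ m k s (ef m k l' 0) i) (x i) +
          ((w (Key.J l' i (maskJ (preJ m k l' i) x)) : ℕ) :
            ZMod (pJ k s i ^ aJ m k s (ef m k l' 0) i))) := by
    intro s hs
    subst hs
    rfl
  exact h _ hs

theorem rst_mem {w : Key → ℕ} {o : JF → ℕ} {y : Fin (rL m k l) → Fin 3 → ℕ} {u : ℕ}
    (hy : y ∈ Fintype.piFinset (fun t : Fin (rL m k l) => Ys m k l t))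
    (hu : u ∈ (Vw m k l w).image (fun v => Un m k l * v)) : rst m k l w o y u ∈ Rest m k l w o :=
  mem_image.2 ⟨(y, u), mem_product.2 ⟨hy, hu⟩, rfl⟩

/-- the sum of the two codes -/
theorem sum_lt' (hM : (MNs m k l' l).Ok (Pool.Agent.Helper84.T5g.Mk m k)) (w : Key → ℕ)
    (x x' : JF → ℕ) :
    (MNs m k l' l).cd hM w x + (MNs m k l' l).cd' hM w x' < 2 * (MNs m k l' l).Ne := by
  have h1 : (MNs m k l' l).cd hM w x < (MNs m k l' l).Ne := cv_lt hM.prime hM.inj _ _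
  have h2 : (MNs m k l' l).cd' hM w x' < (MNs m k l' l).Ne' := cv_lt hM.prime hM.inj _ _
  have h3 : (MNs m k l' l).Ne' ≤ (MNs m k l' l).Ne :=
    Nat.le_of_dvd (NN_pos hM.prime _) (NN_dvd _ hM.ee)
  omega

/-- the data of a hit used on the label level -/
noncomputable def dat (m : Sq) (k l l' : ℕ) (w : Key → ℕ) (q : Par m k l × Par m k l') :
    ((JF → ℕ) × (JF → ℕ)) × (ℕ × ℕ) :=
  ((q.1.1.1, q.2.1.1), (rst m k l w (okey m k l 0 q.1.1.1) q.1.1.2 q.1.2,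
    rst m k l' w (okey m k l' 0 q.2.1.1) q.2.1.2 q.2.2))

/-- the data of a hit -/
theorem dat_spec {w : Key → ℕ} {n : ℕ} {q : Par m k l × Par m k l'} (hq : q ∈ Hts m k l l' w n) :
    (dat m k l l' w q).1.1 ∈ XJ m k l ∧ (dat m k l l' w q).1.2 ∈ XJ m k l' ∧
    (dat m k l l' w q).2.1 ∈ Rest m k l w (okey m k l 0 (dat m k l l' w q).1.1) ∧
    (dat m k l l' w q).2.2 ∈ Rest m k l' w (okey m k l' 0 (dat m k l l' w q).1.2) ∧
    c0 m k l w (dat m k l l' w q).1.1 + c0 m k l' w (dat m k l l' w q).1.2 +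
      ((dat m k l l' w q).2.1 + (dat m k l l' w q).2.2) = n := by
  obtain ⟨⟨⟨x, y⟩, u⟩, ⟨⟨x', y'⟩, u'⟩⟩ := q
  unfold Hts Pm at hq
  rw [mem_filter, mem_product, mem_product, mem_product, mem_product, mem_product] at hq
  obtain ⟨⟨⟨⟨h1, h2⟩, h3⟩, ⟨h4, h5⟩, h6⟩, h7⟩ := hq
  unfold Pool.Agent.Helper84.T5g.val at h7
  rw [el_eq, el_eq] at h7
  refine ⟨h1, h4, rst_mem h2 h3, rst_mem h5 h6, ?_⟩
  simp only at h7
  show c0 m k l w x + c0 m k l' w x' + (rst m k l w (okey m k l 0 x) y u +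
    rst m k l' w (okey m k l' 0 x') y' u') = n
  omega

/-- a free set of hits gives a free set of data -/
theorem free_image {w : Key → ℕ} {n mm : ℕ} {T0 : Finset (Par m k l × Par m k l')}
    (hT0 : T0 ⊆ Hts m k l l' w n) (hfree : Pool.Agent.Helper84.T5g.Free m k l l' T0)
    (hmm : mm < T0.card) :
    ∃ T : Finset (((JF → ℕ) × (JF → ℕ)) × (ℕ × ℕ)), T.card = mm + 1 ∧
      (∀ t ∈ T, t.1.1 ∈ XJ m k l ∧ t.1.2 ∈ XJ m k l' ∧ t.2.1 ∈ Rest m k l w (okey m k l 0 t.1.1) ∧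
        t.2.2 ∈ Rest m k l' w (okey m k l' 0 t.1.2) ∧
        c0 m k l w t.1.1 + c0 m k l' w t.1.2 + (t.2.1 + t.2.2) = n) ∧
      (MNs m k l' l).Free T := by
  classical
  obtain ⟨T, hTT, hTc⟩ := Finset.exists_subset_card_eq (show mm + 1 ≤ T0.card from hmm)
  refine ⟨T.image (dat m k l l' w), ?_, ?_, ?_⟩
  · rw [card_image_of_injOn, hTc]
    intro q hq r hr hqr
    by_contra hne
    obtain ⟨⟨f, _, hf⟩, _⟩ := hfree q (hTT (mem_coe.1 hq)) r (hTT (mem_coe.1 hr)) hne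
    have h1 : (dat m k l l' w q).1.1 = (dat m k l l' w r).1.1 := by rw [hqr]
    exact hf (congrFun h1 (Sum.inl f))
  · intro t ht
    rw [mem_image] at ht
    obtain ⟨q, hq, rfl⟩ := ht
    exact dat_spec (hT0 (hTT hq))
  · intro t ht s hs' hts
    rw [mem_image] at ht hs'
    obtain ⟨q, hq, rfl⟩ := ht
    obtain ⟨r, hr, rfl⟩ := hs'
    have hqr : q ≠ r := fun e => hts (by rw [e])
    obtain ⟨⟨f, hf, hf1⟩, ⟨g, hg1, hg2⟩⟩ := hfree q (hTT hq) r (hTT hr) hqr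
    exact ⟨⟨Sum.inl f, mem_image_of_mem _ hf, hf1⟩, ⟨Sum.inl g, mem_image_of_mem _ hg1, hg2⟩⟩

/-- **P5**: free sets of hits are small if there are few pairs of rests -/
theorem mid_core (hm : m.Ok) (hbb : bb 0 ≤ mL m k l) (hbb' : bb 0 ≤ mL m k l')
    (hll : l' ≤ l) (hs : sL m k l' = sL m k l)
    (hM : (MNs m k l' l).Ok (Pool.Agent.Helper84.T5g.Mk m k))
    {K : Finset Key} (hK : Pool.Agent.Helper84.T5g.keysOf m k l ⊆ K)
    (hK' : Pool.Agent.Helper84.T5g.keysOf m k l' ⊆ K)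
    {E1 : ℕ} {δ : ℝ} (hgood : PrG (Pool.Agent.Helper84.T5g.Mk m k) K
      (fun w => ¬ GoodM m k l l' E1 w) δ)
    {n1 mm : ℕ} (hn1 : ∀ w : Key → ℕ, ∀ n, (Hts m k l l' w n).Nonempty → n < n1)
    {ρ : ℝ} (hρ : 0 ≤ ρ)
    (h : E1 * ((MNs m k l' l).C * MP.Lam0 (MNs m k l' l) *
      (((MNs m k l' l).Ne' : ℝ) / (MNs m k l' l).Ne + 1 / (MNs m k l' l).q)) ≤ ρ) :
    PrG (Pool.Agent.Helper84.T5g.Mk m k) K (fun w => ∃ c, FreeC m k l l' w c ∧ mm < c)
      (δ + n1 * (((MNs m k l' l).q : ℝ) ^ 2 * ρ ^ (mm + 1))) := by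
  classical
  obtain ⟨K0, hK0⟩ : ∃ K0 : Finset Key, K0 = K.filter (fun q => NJ q) := ⟨_, rfl⟩
  have hsub : K0 ⊆ K := by
    rw [hK0]
    exact filter_subset _ _
  have hmem0 : ∀ q ∈ K, NJ q → q ∈ K0 := by
    intro q hq h1
    rw [hK0]
    exact mem_filter.mpr ⟨hq, h1⟩
  have hnot : ∀ (l : ℕ) (i : JF) (z : JF → ℕ), Key.J l i z ∉ K0 := by
    intro l i z hq
    rw [hK0] at hq
    exact (mem_filter.mp hq).2 l i z rfl
  clear hK0
  have hpos : ∀ q, 0 < Pool.Agent.Helper84.T5g.Mk m k q := Mk_pos m k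
  have hR : ∀ (w w' : Key → ℕ), (∀ q ∈ K0, w q = w' q) → ∀ x ∈ XJ m k l,
      Rest m k l w (okey m k l 0 x) = Rest m k l w' (okey m k l 0 x) := fun w w' hw x hx =>
    Rest_congr hm hbb (fun q hq hq1 => hw q (hmem0 q (hK hq) hq1)) (okey_lt hm hbb hx 0)
  have hR' : ∀ (w w' : Key → ℕ), (∀ q ∈ K0, w q = w' q) → ∀ x ∈ XJ m k l',
      Rest m k l' w (okey m k l' 0 x) = Rest m k l' w' (okey m k l' 0 x) := fun w w' hw x hx =>
    Rest_congr hm hbb' (fun q hq hq1 => hw q (hmem0 q (hK' hq) hq1)) (okey_lt hm hbb' hx 0)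
  have hdep : Pool.Agent.Helper42.T5.Pr.DepOn K0 (fun w => ¬ GoodM m k l l' E1 w) := by
    intro w w' hw
    refine not_congr ?_
    unfold GoodM
    refine forall_congr' fun n => forall_congr' fun a => forall_congr' fun x =>
      forall_congr' fun hx => forall_congr' fun x' => forall_congr' fun hx' => ?_
    rw [hR w w' hw x hx, hR' w w' hw x' hx']
  have hE0 : Pool.Agent.Helper42.T5.Pr.PrLe (Pool.Agent.Helper84.T5g.Mk m k) K0
      (fun w => ¬ GoodM m k l l' E1 w) δ :=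
    (Pool.Agent.Helper42.T5.Pr.PrLe_dep_iff hpos hsub hdep).1 (PrLe_of_PrG hgood)
  refine PrG_of_PrLe (Pool.Agent.Helper42.T5.Pr.PrLe_cond_bad hsub (by positivity) hE0
    (fun r0 hr0 hg => PrLe_of_PrG ?_))
  rw [not_not] at hg
  obtain ⟨w0, hw0⟩ : ∃ w0, w0 = Pool.Agent.Helper42.T5.Pr.ext K0 r0 := ⟨_, rfl⟩
  rw [← hw0] at hg ⊢
  -- the moduli
  have hN0 : ∀ i, (MNs m k l' l).p i ^ (MNs m k l' l).c' i ∣ Jn m k (sL m k l) l' := fun i =>
    pow_dvd_NN (pJ k (sL m k l)) (aJ m k (sL m k l) l') i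
  have hJJ : Jn m k (sL m k l) l' ∣ Jn m k (sL m k l) l :=
    Pool.Agent.Helper45.T5g.Jn_dvd m k (sL m k l) hll
  have hNe' : FF m k l' 0 = NN (MNs m k l' l).p (MNs m k l' l).e' := by
    unfold FF
    rw [hs]
    rfl
  -- the windows
  set E : ℕ → (JF → ℕ) × (JF → ℕ) → Finset (ℕ × ℕ) := fun n z =>
    (Rest m k l w0 (okey m k l 0 z.1) ×ˢ Rest m k l' w0 (okey m k l' 0 z.2)).filter
      (fun q => q.1 + q.2 ≤ n ∧ n < q.1 + q.2 + 2 * FF m k l 0) with hE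
  have hEm : ∀ n z t, t ∈ E n z ↔ (t.1 ∈ Rest m k l w0 (okey m k l 0 z.1) ∧
      t.2 ∈ Rest m k l' w0 (okey m k l' 0 z.2)) ∧ (t.1 + t.2 ≤ n ∧
        n < t.1 + t.2 + 2 * FF m k l 0) := by
    intro n z t
    rw [hE]
    simp only [mem_filter, mem_product]
  have hdv : ∀ n z, ∀ t ∈ E n z, Jn m k (sL m k l) l' ∣ t.1 + t.2 := by
    intro n z t ht
    rw [hEm] at ht
    refine dvd_add (hJJ.trans (rest_dvd hm ht.1.1)) ?_
    have h1 := rest_dvd hm ht.1.2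
    rwa [hs] at h1
  have hτ : ∀ n, ∀ z : (JF → ℕ) × (JF → ℕ), z.1 ∈ (MNs m k l' l).X → z.2 ∈ (MNs m k l' l).X' →
      ∀ t ∈ E n z, ∀ i, n - (t.1 + t.2) ≡ n [MOD (MNs m k l' l).p i ^ (MNs m k l' l).c' i] := by
    intro n z _ _ t ht i
    have h1 := (hN0 i).trans (hdv n z t ht)
    rw [hEm] at ht
    have h2 : n - (t.1 + t.2) + (t.1 + t.2) = n := Nat.sub_add_cancel ht.2.1
    have h3 : n - (t.1 + t.2) + (t.1 + t.2) ≡ n - (t.1 + t.2) + 0
        [MOD (MNs m k l' l).p i ^ (MNs m k l' l).c' i] :=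
      Nat.ModEq.add_left _ ((Nat.modEq_zero_iff_dvd).2 h1)
    rw [h2, add_zero] at h3
    exact h3.symm
  have hR0 : (MNs m k l' l).e' (MNs m k l' l).R = (MNs m k l' l).c' (MNs m k l' l).R := by
    have h1 := hM.ce' (MNs m k l' l).R
    have h3 := hM.ee (MNs m k l' l).R
    have h4 := hM.statR
    omega
  have hcard : ∀ n, ∀ z : (JF → ℕ) × (JF → ℕ), z.1 ∈ (MNs m k l' l).X →
      z.2 ∈ (MNs m k l' l).X' → ∀ a : ℕ, letI := Classical.decEq (ℕ × ℕ);
      letI : DecidablePred (fun t : ℕ × ℕ => ∀ i, i ≠ (MNs m k l' l).R →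
        n - (t.1 + t.2) ≡ a [MOD (MNs m k l' l).p i ^ (MNs m k l' l).e' i]) :=
        fun _ => Classical.dec _
      ((E n z).filter (fun t => ∀ i, i ≠ (MNs m k l' l).R →
        n - (t.1 + t.2) ≡ a [MOD (MNs m k l' l).p i ^ (MNs m k l' l).e' i])).card ≤ E1 := by
    intro n z hz hz' a
    obtain ⟨F, hF⟩ : ∃ F : Finset (ℕ × ℕ), F = (E n z).filter (fun t => ∀ i,
      i ≠ (MNs m k l' l).R → n - (t.1 + t.2) ≡ a
        [MOD (MNs m k l' l).p i ^ (MNs m k l' l).e' i]) := ⟨_, rfl⟩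
    have hgoal : F.card ≤ E1 := by
      rcases F.eq_empty_or_nonempty with h0 | ⟨t0, ht0⟩
      · rw [h0]
        simp
      refine le_trans (card_le_card ?_) (hg n (t0.1 + t0.2) z.1 hz z.2 hz')
      intro t ht
      have ht' := ht
      have ht0' := ht0
      rw [hF, mem_filter] at ht ht0
      have h1 := (hEm n z t).1 ht.1
      have h2 := (hEm n z t0).1 ht0.1
      rw [mem_filter, mem_product]
      refine ⟨h1.1, h1.2, ?_⟩
      rw [hNe']
      rw [← ZMod.natCast_eq_natCast_iff]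
      rw [natCast_eq_iff hM.prime hM.inj]
      intro i
      rw [ZMod.natCast_eq_natCast_iff]
      by_cases hi : i = (MNs m k l' l).R
      · rw [hi, hR0]
        exact (((Nat.modEq_zero_iff_dvd).2 ((hN0 _).trans (hdv n z t ht.1))).trans
          ((Nat.modEq_zero_iff_dvd).2 ((hN0 _).trans (hdv n z t0 ht0.1))).symm)
      · have h3 := (ht.2 i hi).trans (ht0.2 i hi).symm
        have h4 : n - (t.1 + t.2) + (t.1 + t.2) ≡ n - (t0.1 + t0.2) + (t0.1 + t0.2)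
            [MOD (MNs m k l' l).p i ^ (MNs m k l' l).e' i] := by
          rw [Nat.sub_add_cancel h1.2.1, Nat.sub_add_cancel h2.2.1]
        exact Nat.ModEq.add_left_cancel h3 h4
    rw [hF] at hgoal
    convert hgoal
  -- the keys
  have a1 : ∀ x ∈ (MNs m k l' l).X, ∀ i, (MNs m k l' l).key i x ∈ K \ K0 := fun x hx i =>
    mem_sdiff.2 ⟨hK (J_mem (maskJ_lt (Bd_pos m k l) (XJ_lt hm hbb hx))), hnot _ _ _⟩
  have a2 : ∀ x ∈ (MNs m k l' l).X', ∀ i, (MNs m k l' l).key' i x ∈ K \ K0 := fun x hx i =>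
    mem_sdiff.2 ⟨hK' (J_mem (maskJ_lt (Bd_pos m k l') (XJ_lt hm hbb' hx))), hnot _ _ _⟩
  have key := PrG_exists (Mk := Pool.Agent.Helper84.T5g.Mk m k) (K := K \ K0) (range n1)
    (fun n _ => main_tuple_lab hM hpos a1 a2 (E n) (fun t : ℕ × ℕ => n - (t.1 + t.2)) n E1
      (hτ n) (hcard n) hρ h mm)
  refine PrG_mono ?_ (le_of_eq ?_) key
  · rintro r1 hr1 ⟨c, ⟨n, T0, hT0, hfree, rfl⟩, hmm⟩
    obtain ⟨w, hw⟩ : ∃ w, w = Pool.Agent.Helper42.T5.Pr.glue K0 w0 (ext (K \ K0) r1) := ⟨_, rfl⟩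
    rw [← hw] at hT0
    have hww : ∀ q ∈ K0, w q = w0 q := fun q hq => by
      rw [hw]
      exact Pool.Agent.Helper42.T5.Pr.glue_mem _ _ _ hq
    have hc : ∀ (l : ℕ) (x : JF → ℕ), c0 m k l w x = c0 m k l (ext (K \ K0) r1) x := by
      intro l x
      unfold c0
      congr 1
      funext i
      unfold cmp0
      rw [hw, Pool.Agent.Helper42.T5.Pr.glue_not_mem _ _ _ (hnot l i _)]
    obtain ⟨T, hTc, hTs, hTf⟩ := free_image hT0 hfree hmm
    refine ⟨n, ?_, T, hTc, ?_, hTf⟩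
    · rw [mem_range]
      refine hn1 w n ?_
      have hne : T0.Nonempty := by
        rw [← card_pos]
        omega
      exact hne.mono hT0
    · intro t ht
      obtain ⟨hx, hx', b1, b2, h3⟩ := hTs t ht
      rw [hR w w0 hww _ hx] at b1
      rw [hR' w w0 hww _ hx'] at b2
      rw [hc, hc] at h3
      have h4 := sum_lt' hM (ext (K \ K0) r1) t.1.1 t.1.2
      rw [cd_eq, cd'_eq hs] at h4
      have h5 : (MNs m k l' l).Ne = FF m k l 0 := rfl
      rw [h5] at h4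
      rw [cd_eq, cd'_eq hs]
      exact ⟨hx, hx', (hEm _ _ _).2 ⟨⟨b1, b2⟩, by omega, by omega⟩, by omega⟩
  · rw [sum_const, card_range, nsmul_eq_mul]

end Pool.Agent.Helper3.T5g
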