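import Pool.Agent.Helper3.T5g.Mid
import Pool.Agent.Helper18.T5g.MidNum
import Pool.Agent.Helper87.OUT2g.Final

/-!
# T5g, line 8 (CaseMid): final statements
-/

set_option autoImplicit false

namespace Pool.Agent.Helper3.T5g

open Pool.Agent.Helper84.T5g Pool.Agent.Helper37.T5g
open Pool.Agent.Helper99.T5g (OkF)

theorem midNum (m : Sq) (hF : OkF m) : MidNumStmt m m.k := by
  have hQ := Pool.Agent.Helper30.T5g.bigQ_of_okF hF
  obtain ⟨l0, h⟩ := Pool.Agent.Helper18.T5g.mid_rho hF.toOk m.k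
  exact ⟨l0, fun l' l h1 h2 _ h3 h4 h5 E1 hE => h l' l h1 h2 h3 h4 h5 E1 hE⟩

/-- **line 8**, free sets of hits -/
theorem mid_freeC : Blk CaseMid FreeC := mid_free midNum

/-- **line 8** -/
theorem mid : Blk CaseMid RpC := mid_rpc midNum Pool.Agent.Helper87.OUT2g.blk_up

end Pool.Agent.Helper3.T5g
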